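import Pool.Agent.Y556.SK.Bound
import Pool.Agent.Y556.SK.Pol

/-!
# The Skolem Problem for recurrences whose roots lie in a group of finite rank

Let `Γ` be a finitely generated multiplicative group of algebraic numbers and `d` a natural number.
`Cls Γ d` is the class of the rational recurrences of order at most `d` all of whose nonzero
characteristic roots have a positive power in `Γ` (so the roots themselves, their degrees and
heights, and the roots of unity among their quotients vary with the instance; multiple roots are
allowed). There is one sequence of polynomial-time reductions `F A` to the existential theory of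
the reals and one sequence of languages `G A` in `P`, sound for all rational recurrences, such that
for every class all but finitely many `F A` decide the existence of a zero for all members of the
class, and all but finitely many `G A` do so for its members with squarefree characteristic
polynomial. In particular (`Γ` generated by the roots) this holds for every fixed recurrence, of
any order, with arbitrary rational initial values.

The main point is a bound for the zeros. A zero `n` of a member of size `s` either belongs to a
full residue class modulo `L = L(d)` of zeros, or `n ≤ 2 ^ (B s)`, and even `n ≤ B s` if the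
characteristic polynomial is squarefree; `B = B(Γ, d)`.

Proof idea. By a compactness argument with germs of sequences and the subspace theorem (library
`Pool.Agent.Y215.SK`) the terms of `∑ c_{ij} n^j λ_i^n` can cancel, at an index `n` larger than a
constant times the heights of the coefficients, only inside the classes of the roots `λ_i` modulo
the relation that `(λ_i / λ_j) ^ n` has small height; quotients of bounded degree with this property
are roots of unity (Northcott), of order dividing a fixed number `L`. So such an `n` is a common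
root of certain polynomials with algebraic coefficients, one for each class; either all of them
vanish identically on the residue class of `n`, or `n` is bounded by the height of a nonzero one.
-/

set_option autoImplicit false

namespace Pool.Agent.Results.MP_8d13b5_lc.FiniteRankRoots

open Polynomial Pool.Agent.NPC Pool.Agent.NPC.ER Pool.Agent.H612.LR Pool.Agent.Y556.SK

/-- an algebraic closure of `ℚ` -/
abbrev Qalg : Type := AlgebraicClosure ℚ

/-- The order is at most `d`, and every nonzero characteristic root has a power in `Γ`. -/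
def RootsIn (Γ : Subgroup Qalgˣ) (d : ℕ) (l : Rec) : Prop :=
  l ≠ [] ∧ l.length ≤ d ∧ ∀ z : Qalg, aeval z (chi l) = 0 → z ≠ 0 →
    ∃ m : ℕ, 0 < m ∧ ∃ g ∈ Γ, z ^ m = (g : Qalg)

theorem bernoulli (s A : ℕ) : 1 + A * s ≤ (1 + s) ^ A := by
  induction A with
  | zero => simp
  | succ A ih =>
    rw [pow_succ]
    nlinarith [Nat.zero_le (A * s * s)]

theorem chi_of_map (c : List ℚ) (l : Rec) (h : l.map Prod.fst = c) :
    chi l = chi (c.map fun a => (a, (0 : ℚ))) := by
  subst h
  have h1 : ∀ i, coef ((l.map Prod.fst).map fun a => (a, (0 : ℚ))) i = coef l i := by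
    intro i
    unfold coef
    by_cases hi : i < l.length
    · rw [List.getD_eq_getElem _ _ (by simpa using hi), List.getD_eq_getElem _ _ hi]
      simp
    · rw [List.getD_eq_default _ _ (by simpa using hi), List.getD_eq_default _ _ (not_lt.1 hi)]
  unfold chi
  rw [List.length_map, List.length_map]
  simp only [h1]

/-- the roots of a fixed recurrence generate a finitely generated group -/
theorem fixed (c : List ℚ) (hc : c ≠ []) : ∃ Γ : Subgroup Qalgˣ, Γ.FG ∧
    ∀ l : Rec, l.map Prod.fst = c → RootsIn Γ c.length l := by
  set p := (chi (c.map fun a => (a, (0 : ℚ)))).map (algebraMap ℚ Qalg) with hp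
  have hlen : 1 ≤ (c.map fun a => (a, (0 : ℚ))).length := by
    rw [List.length_map]
    exact List.length_pos_iff.2 hc
  have hp0 : p ≠ 0 := ((chi_monic _ hlen).map _).ne_zero
  refine ⟨Subgroup.closure {u : Qalgˣ | (u : Qalg) ∈ p.roots}, ?_, fun l hl => ⟨?_, ?_, ?_⟩⟩
  · rw [Subgroup.fg_iff]
    refine ⟨_, rfl, ?_⟩
    have h1 : {u : Qalgˣ | (u : Qalg) ∈ p.roots} =
        (fun u : Qalgˣ => (u : Qalg)) ⁻¹' {x | x ∈ p.roots} := rfl
    rw [h1]
    exact Set.Finite.preimage (fun _ _ _ _ h => Units.ext h) (Multiset.finite_toSet _)
  · rintro rfl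
    exact hc (by simpa using hl.symm)
  · rw [← hl, List.length_map]
  · intro z hz hz0
    refine ⟨1, Nat.one_pos, Units.mk0 z hz0, Subgroup.subset_closure ?_, by simp⟩
    change z ∈ p.roots
    rw [mem_roots hp0, IsRoot.def, hp, eval_map_algebraMap, ← chi_of_map c l hl]
    exact hz

theorem result : ∃ (F : ℕ → List Bool → Fm) (G : ℕ → Set (List Bool)),
    (∀ A, PolyTime (fun w => bits (F A w))) ∧ (∀ A, InP (G A)) ∧
    (∀ A, ∀ l : Rec, l ≠ [] → (ETR (F A (bits l)) ∨ bits l ∈ G A) → ∃ n, seq l n = 0) ∧
    (∀ d : ℕ, ∃ L : ℕ, 1 ≤ L ∧ ∀ Γ : Subgroup Qalgˣ, Γ.FG → ∃ B : ℕ,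
      ∀ l : Rec, RootsIn Γ d l →
        (∀ n, seq l n = 0 → (∀ m, l.length ≤ m → m ≡ n [MOD L] → seq l m = 0) ∨
          (n ≤ 2 ^ (B * Pool.Agent.H612.LR.sz l) ∧
            (Squarefree (chi l) → n ≤ B * Pool.Agent.H612.LR.sz l))) ∧
        ∀ A, B ≤ A → (ETR (F A (bits l)) ↔ ∃ n, seq l n = 0) ∧
          (Squarefree (chi l) → (bits l ∈ G A ↔ ∃ n, seq l n = 0))) ∧
    ∀ c : List ℚ, c ≠ [] → ∃ Γ : Subgroup Qalgˣ, Γ.FG ∧
      ∀ l : Rec, l.map Prod.fst = c → RootsIn Γ c.length l := by
  choose F hF hF' using etr_str
  refine ⟨F, fun A => lang (fun l : Rec =>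
    ∃ n, n < l.length + (1 + Pool.Agent.H612.LR.sz l) ^ A ∧ seq l n = 0), hF,
    fun A => inPP_small A, ?_, ?_, fixed⟩
  · rintro A l hl (h | h)
    · obtain ⟨n, -, hn⟩ := (hF' A l hl).1 h
      exact ⟨n, hn⟩
    · obtain ⟨n, -, hn⟩ := bits_mem_lang.1 h
      exact ⟨n, hn⟩
  · intro d
    obtain ⟨L, hL1, hL⟩ := bound d
    refine ⟨L, hL1, fun Γ hΓ => ?_⟩
    obtain ⟨B, hB⟩ := hL Γ hΓ
    refine ⟨B + L + 1, fun l hl => ?_⟩
    set s := Pool.Agent.H612.LR.sz l with hs
    have hk : 1 ≤ l.length := List.length_pos_iff.2 hl.1
    have hks : l.length ≤ s := by exact_mod_cast length_le_sz l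
    have hBs : B * s ≤ (B + L + 1) * s := Nat.mul_le_mul_right _ (by omega)
    refine ⟨fun n hn => ?_, fun A hA => ?_⟩
    · rcases hB l hl n hn with h | ⟨h1, h2⟩
      · exact Or.inl h
      · exact Or.inr ⟨h1.trans (Nat.pow_le_pow_right (by norm_num) hBs),
          fun hsq => (h2 hsq).trans hBs⟩
    · have hA1 : (B + L + 1) * s ≤ A * s := Nat.mul_le_mul_right _ hA
      have hA2 := bernoulli s A
      have hA3 : L + s ≤ (B + L + 1) * s := by nlinarith
      have hA4 : B * s < A * s := by nlinarith
      -- a zero with a small index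
      have key : (∃ n, seq l n = 0) → ∃ n, seq l n = 0 ∧ (n < l.length + L ∨
          (n ≤ 2 ^ (B * s) ∧ (Squarefree (chi l) → n ≤ B * s))) := by
        rintro ⟨n, hn⟩
        rcases hB l hl n hn with h | h
        · refine ⟨l.length + (n + (L - 1) * l.length) % L, h _ (Nat.le_add_right _ _) ?_, Or.inl ?_⟩
          · have e1 : l.length + (n + (L - 1) * l.length) ≡ n [MOD L] := by
              have e2 : l.length + (n + (L - 1) * l.length) = n + L * l.length := by
                obtain ⟨L', rfl⟩ := Nat.exists_eq_add_of_le hL1
                simp only [Nat.add_sub_cancel_left]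
                ring
              rw [e2]
              exact (Nat.ModEq.refl n).add (Nat.modEq_zero_iff_dvd.2 (Dvd.intro _ rfl)) |>.trans
                (by rw [add_zero])
            exact ((Nat.ModEq.refl _).add (Nat.mod_modEq _ _)).trans e1
          · exact Nat.add_lt_add_left (Nat.mod_lt _ hL1) _
        · exact ⟨n, hn, Or.inr h⟩
      constructor
      · rw [hF' A l hl.1]
        refine ⟨fun ⟨n, _, hn⟩ => ⟨n, hn⟩, fun h => ?_⟩
        obtain ⟨n, hn, h1⟩ := key h
        refine ⟨n, lt_max_of_lt_left ?_, hn⟩
        change n < 2 ^ ((1 + s) ^ A)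
        rcases h1 with h1 | ⟨h1, -⟩
        · have h2 : (1 + s) ^ A < 2 ^ ((1 + s) ^ A) := Nat.lt_two_pow_self
          omega
        · refine h1.trans_lt (Nat.pow_lt_pow_right (by norm_num) ?_)
          omega
      · intro hsq
        rw [bits_mem_lang]
        refine ⟨fun ⟨n, _, hn⟩ => ⟨n, hn⟩, fun h => ?_⟩
        obtain ⟨n, hn, h1⟩ := key h
        refine ⟨n, ?_, hn⟩
        change n < l.length + (1 + s) ^ A
        rcases h1 with h1 | ⟨-, h1⟩
        · omega
        · have := h1 hsq
          omega

end Pool.Agent.Results.MP_8d13b5_lc.FiniteRankRoots
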